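import Pool.Agent.W177.CT.FkSum

/-!
CT-BAD: exponential bound for one bad link.
-/

set_option autoImplicit false

open scoped BigOperators

namespace Pool.Agent.W177.CT

open Pool.Agent.W823.CT

lemma lstep_mono {V Ω : Type} [Fintype V] [Fintype Ω] [DecidableEq V] (C : BC V Ω)
    {f g : V × Ω → (V → ℕ) → ℝ} (h : ∀ s l, f s l ≤ g s l) (k : ℕ) :
    ∀ s l, (C.lstep^[k] f) s l ≤ (C.lstep^[k] g) s l := by
  induction k with
  | zero => exact h
  | succ k ih =>
    intro s l
    rw [Function.iterate_succ_apply', Function.iterate_succ_apply']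
    exact Finset.sum_le_sum fun s' _ => mul_le_mul_of_nonneg_left (ih _ _) (C.K_nonneg _ _)

lemma lstep_const_mul {V Ω : Type} [Fintype V] [Fintype Ω] [DecidableEq V] (C : BC V Ω) (c : ℝ)
    (f : V × Ω → (V → ℕ) → ℝ) (k : ℕ) :
    ∀ s l, (C.lstep^[k] (fun s l => c * f s l)) s l = c * (C.lstep^[k] f) s l := by
  induction k with
  | zero => intro s l; rfl
  | succ k ih =>
    intro s l
    rw [Function.iterate_succ_apply', Function.iterate_succ_apply']
    show ∑ s', C.K s s' * _ = c * ∑ s', C.K s s' * _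
    rw [Finset.mul_sum]
    refine Finset.sum_congr rfl fun s' _ => ?_
    rw [ih]
    ring

theorem bad : S_BAD := by
  intro V Ω _ _ _ C o x y ρ t α β hxy hyo hρ hD ht hβ hαβ K
  have hα : 0 < α := hβ.trans hαβ
  have hρ0 : 0 < ρ := by linarith
  set lam : ℝ := (α - β) / (ρ * α) with hlam
  set θ : ℝ := (α - β) / (ρ * β) with hθ
  set κ : ℝ := 1 / t with hκ
  have hlam0 : 0 ≤ lam := div_nonneg (by linarith) (by positivity)
  have hθ0 : 0 ≤ θ := div_nonneg (by linarith) (by positivity)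
  have hκ0 : 0 < κ := by positivity
  have hlam1 : lam < 1 := by
    rw [hlam, div_lt_one (by positivity)]
    nlinarith
  let v : V → ℝ := fun z => (if z = x then lam else 0) - (if z = y then θ else 0) -
    (if z = o then κ else 0)
  have hv : ∀ z, v z < 1 := by
    intro z
    simp only [v]
    split_ifs <;> linarith
  have hvo : 1 - v o ≤ 1 + κ := by
    simp only [v]
    rw [if_neg hyo.symm]
    simp only [if_true]
    split_ifs <;> linarith
  have hsum : ∀ q : V → ℝ, ∑ z, v z * q z = lam * q x - θ * q y - κ * q o := by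
    intro q
    simp only [v, sub_mul, Finset.sum_sub_distrib, ite_mul, zero_mul, Finset.sum_ite_eq',
      Finset.mem_univ, if_true]
  have hkey : ∀ a b : ℝ, ρ * (lam * a ^ 2 - θ * b ^ 2) ≤ (a - b) ^ 2 := by
    intro a b
    have e : (a - b) ^ 2 - ρ * (lam * a ^ 2 - θ * b ^ 2) = (β * a - α * b) ^ 2 / (α * β) := by
      rw [hlam, hθ]
      field_simp
      ring
    have : 0 ≤ (β * a - α * b) ^ 2 / (α * β) := by positivity
    linarith
  have hFK := fksum V Ω C o v κ hκ0 hv (by
    intro g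
    rw [hsum]
    have h1 : C.sq g x = C.nr g x ^ 2 := by
      unfold BC.nr
      rw [Real.sq_sqrt]
      exact Finset.sum_nonneg fun ω _ => mul_nonneg (C.ν_pos _).le (sq_nonneg _)
    have h2 : C.sq g y = C.nr g y ^ 2 := by
      unfold BC.nr
      rw [Real.sq_sqrt]
      exact Finset.sum_nonneg fun ω _ => mul_nonneg (C.ν_pos _).le (sq_nonneg _)
    rw [h1, h2]
    have h3 := hkey (C.nr g x) (C.nr g y)
    have h4 := hD g
    have h5 : ρ * (lam * C.nr g x ^ 2 - θ * C.nr g y ^ 2) ≤ ρ * C.Dir g := h3.trans h4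
    have h6 := le_of_mul_le_mul_left h5 hρ0
    linarith) K
  set c : ℝ := Real.exp 2 * Real.exp (-((α - β) ^ 2 / ρ)) with hc
  have hc0 : 0 ≤ c := by positivity
  have hpt : ∀ (s : V × Ω) (l : V → ℕ),
      (if s.1 = o ∧ (l o : ℝ) ≤ 2 * t ∧ α ^ 2 ≤ (l x : ℝ) ∧ (l y : ℝ) ≤ β ^ 2 then (1 : ℝ) else 0) ≤
        c * ((if s.1 = o then 1 else 0) * ∏ z, ((1 - v z)⁻¹) ^ l z) := by
    intro s l
    have hprod0 : 0 ≤ ∏ z, ((1 - v z)⁻¹) ^ l z :=
      Finset.prod_nonneg fun z _ => pow_nonneg (inv_nonneg.2 (by linarith [hv z])) _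
    split_ifs with h1 h2 h2
    · rw [one_mul]
      have h3 : Real.exp (lam * l x - θ * l y - κ * l o) ≤ ∏ z, ((1 - v z)⁻¹) ^ l z := by
        rw [← hsum (fun z => (l z : ℝ)), Real.exp_sum]
        refine Finset.prod_le_prod (fun z _ => (Real.exp_pos _).le) fun z _ => ?_
        rw [mul_comm, Real.exp_nat_mul]
        refine pow_le_pow_left₀ (Real.exp_pos _).le ?_ _
        have h4 : 0 < 1 - v z := by linarith [hv z]
        rw [← inv_inv (Real.exp (v z)), ← Real.exp_neg]
        refine inv_anti₀ h4 ?_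
        have := Real.add_one_le_exp (-v z)
        linarith
      have h4 : (α - β) ^ 2 / ρ - 2 ≤ lam * l x - θ * l y - κ * l o := by
        have h5 : lam * α ^ 2 ≤ lam * l x := mul_le_mul_of_nonneg_left h1.2.2.1 hlam0
        have h6 : θ * l y ≤ θ * β ^ 2 := mul_le_mul_of_nonneg_left h1.2.2.2 hθ0
        have h7 : κ * l o ≤ 2 := by
          have := mul_le_mul_of_nonneg_left h1.2.1 hκ0.le
          have e : κ * (2 * t) = 2 := by
            rw [hκ]
            field_simp
          linarith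
        have e : lam * α ^ 2 - θ * β ^ 2 = (α - β) ^ 2 / ρ := by
          rw [hlam, hθ]
          field_simp
        linarith
      have h5 : c * Real.exp ((α - β) ^ 2 / ρ - 2) = 1 := by
        rw [hc, ← Real.exp_add, ← Real.exp_add]
        rw [show (2 : ℝ) + -((α - β) ^ 2 / ρ) + ((α - β) ^ 2 / ρ - 2) = 0 by ring, Real.exp_zero]
      calc (1 : ℝ) = c * Real.exp ((α - β) ^ 2 / ρ - 2) := h5.symm
        _ ≤ c * Real.exp (lam * l x - θ * l y - κ * l o) :=
            mul_le_mul_of_nonneg_left (Real.exp_le_exp.2 h4) hc0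
        _ ≤ _ := mul_le_mul_of_nonneg_left h3 hc0
    · exact absurd h1.1 h2
    · rw [one_mul]
      exact mul_nonneg hc0 hprod0
    · simp
  have hterm : ∀ k, C.blk (fun s => (C.lstep^[k] (fun s l =>
        if s.1 = o ∧ (l o : ℝ) ≤ 2 * t ∧ α ^ 2 ≤ (l x : ℝ) ∧ (l y : ℝ) ≤ β ^ 2 then 1 else 0)) s 0) o ≤
      c * C.blk ((fun (f : V × Ω → ℝ) (s : V × Ω) => (1 - v s.1)⁻¹ * C.P f s)^[k]
        (fun s => if s.1 = o then 1 else 0)) o := by
    intro k
    unfold BC.blk
    rw [Finset.mul_sum]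
    refine Finset.sum_le_sum fun ω _ => ?_
    have h1 := lstep_mono C hpt k (o, ω) 0
    rw [lstep_const_mul, fkpath V Ω C o (fun z => (1 - v z)⁻¹) k (o, ω) 0] at h1
    have h2 := mul_le_mul_of_nonneg_left h1 (C.ν_pos ω).le
    simp only [Pi.zero_apply, pow_zero, Finset.prod_const_one, one_mul] at h2
    calc _ ≤ _ := h2
      _ = _ := by ring
  calc _ ≤ ∑ k ∈ Finset.range K, c * C.blk ((fun (f : V × Ω → ℝ) (s : V × Ω) =>
          (1 - v s.1)⁻¹ * C.P f s)^[k] (fun s => if s.1 = o then 1 else 0)) o :=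
        Finset.sum_le_sum fun k _ => hterm k
    _ = c * ∑ k ∈ Finset.range K, C.blk ((fun (f : V × Ω → ℝ) (s : V × Ω) =>
          (1 - v s.1)⁻¹ * C.P f s)^[k] (fun s => if s.1 = o then 1 else 0)) o := by
        rw [Finset.mul_sum]
    _ ≤ c * ((1 - v o) / κ) := mul_le_mul_of_nonneg_left hFK hc0
    _ ≤ c * ((1 + κ) / κ) := mul_le_mul_of_nonneg_left
        (div_le_div_of_nonneg_right hvo hκ0.le) hc0
    _ = Real.exp 2 * (1 + t) * Real.exp (-((α - β) ^ 2 / ρ)) := by
        rw [hc, hκ]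
        field_simp
        ring

end Pool.Agent.W177.CT
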