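import Pool.Agent.W823.CT.Stm

/-!
CT-FKSUM: Green function bound by positivity.
-/

set_option autoImplicit false

open scoped BigOperators

namespace Pool.Agent.W177.CT

open Pool.Agent.W823.CT

section
variable {V Ω : Type} [Fintype V] [Fintype Ω]

lemma ip_self (C : BC V Ω) (g : V × Ω → ℝ) : C.ip g g = ∑ z, C.sq g z := by
  unfold BC.ip BC.sq
  rw [Fintype.sum_prod_type]
  exact Finset.sum_congr rfl fun x _ => Finset.sum_congr rfl fun ω _ => by ring

lemma blk_sum (C : BC V Ω) (f : ℕ → V × Ω → ℝ) (K : ℕ) (o : V) :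
    C.blk (fun s => ∑ k ∈ Finset.range K, f k s) o = ∑ k ∈ Finset.range K, C.blk (f k) o := by
  unfold BC.blk
  rw [Finset.sum_comm]
  exact Finset.sum_congr rfl fun ω _ => by rw [Finset.mul_sum]

lemma P_sum (C : BC V Ω) (f : ℕ → V × Ω → ℝ) (K : ℕ) (s : V × Ω) :
    C.P (fun s => ∑ k ∈ Finset.range K, f k s) s = ∑ k ∈ Finset.range K, C.P (f k) s := by
  unfold BC.P
  rw [Finset.sum_comm]
  exact Finset.sum_congr rfl fun ω _ => by rw [Finset.mul_sum]

/-- Jensen inequality -/
lemma blk_sq_le (C : BC V Ω) (g : V × Ω → ℝ) (x : V) : C.blk g x ^ 2 ≤ C.sq g x := by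
  unfold BC.blk BC.sq
  have h := Finset.sum_mul_sq_le_sq_mul_sq Finset.univ (fun ω => √(C.ν ω))
    (fun ω => √(C.ν ω) * g (x, ω))
  have e1 : ∑ ω, √(C.ν ω) * (√(C.ν ω) * g (x, ω)) = ∑ ω, C.ν ω * g (x, ω) :=
    Finset.sum_congr rfl fun ω _ => by rw [← mul_assoc, Real.mul_self_sqrt (C.ν_pos ω).le]
  have e2 : ∑ ω, √(C.ν ω) ^ 2 = 1 := by
    rw [← C.ν_sum]
    exact Finset.sum_congr rfl fun ω _ => Real.sq_sqrt (C.ν_pos ω).le
  have e3 : ∑ ω, (√(C.ν ω) * g (x, ω)) ^ 2 = ∑ ω, C.ν ω * g (x, ω) ^ 2 :=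
    Finset.sum_congr rfl fun ω _ => by rw [mul_pow, Real.sq_sqrt (C.ν_pos ω).le]
  rw [e1, e2, e3, one_mul] at h
  exact h

end

theorem fksum : S_FKSUM := by
  intro V Ω _ _ _ C o v κ hκ hv hD K
  set W : (V × Ω → ℝ) → (V × Ω → ℝ) := fun f s => (1 - v s.1)⁻¹ * C.P f s with hW
  set u0 : V × Ω → ℝ := fun s => if s.1 = o then 1 else 0 with hu0
  have hpos : ∀ s : V × Ω, 0 < 1 - v s.1 := fun s => by linarith [hv s.1]
  have hWnn : ∀ f : V × Ω → ℝ, (∀ s, 0 ≤ f s) → ∀ s, 0 ≤ W f s := by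
    intro f hf s
    exact mul_nonneg (inv_nonneg.2 (hpos s).le)
      (Finset.sum_nonneg fun s' _ => mul_nonneg (C.K_nonneg _ _) (hf s'))
  have hu0nn : ∀ s, 0 ≤ u0 s := by
    intro s
    simp only [hu0]
    split_ifs <;> norm_num
  have hWk : ∀ (k : ℕ) (s : V × Ω), 0 ≤ (W^[k] u0) s := by
    intro k
    induction k with
    | zero => intro s; exact hu0nn s
    | succ k ih => intro s; rw [Function.iterate_succ_apply']; exact hWnn _ ih s
  set h : V × Ω → ℝ := fun s => ∑ k ∈ Finset.range K, (W^[k] u0) s with hh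
  have hnn : ∀ s, 0 ≤ h s := fun s => Finset.sum_nonneg fun k _ => hWk k s
  have hsucc : ∀ s, ∑ k ∈ Finset.range (K + 1), (W^[k] u0) s = u0 s + W h s := by
    intro s
    rw [Finset.sum_range_succ', add_comm]
    congr 1
    have e : W h s = (1 - v s.1)⁻¹ * C.P h s := rfl
    rw [e, hh, P_sum, Finset.mul_sum]
    exact Finset.sum_congr rfl fun k _ => by rw [Function.iterate_succ_apply']
  have hle : ∀ s, h s ≤ u0 s + W h s := by
    intro s
    rw [← hsucc, Finset.sum_range_succ]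
    have := hWk K s
    simp only [hh]
    linarith
  have h1 : ∀ s, (1 - v s.1) * h s ≤ (1 - v o) * u0 s + C.P h s := by
    intro s
    have h2 := mul_le_mul_of_nonneg_left (hle s) (hpos s).le
    have e : (1 - v s.1) * W h s = C.P h s := by
      show (1 - v s.1) * ((1 - v s.1)⁻¹ * C.P h s) = C.P h s
      rw [mul_inv_cancel_left₀ (hpos s).ne']
    have e2 : (1 - v s.1) * u0 s = (1 - v o) * u0 s := by
      simp only [hu0]
      split_ifs with hs
      · rw [hs]
      · ring
    rw [mul_add, e, e2] at h2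
    exact h2
  have h2 : ∑ s : V × Ω, C.ν s.2 * h s * ((1 - v s.1) * h s) ≤
      ∑ s : V × Ω, C.ν s.2 * h s * ((1 - v o) * u0 s + C.P h s) :=
    Finset.sum_le_sum fun s _ => mul_le_mul_of_nonneg_left (h1 s)
      (mul_nonneg (C.ν_pos _).le (hnn s))
  have e3 : ∑ s : V × Ω, C.ν s.2 * h s * ((1 - v s.1) * h s) =
      C.ip h h - ∑ z, v z * C.sq h z := by
    unfold BC.ip BC.sq
    rw [Fintype.sum_prod_type, Fintype.sum_prod_type, ← Finset.sum_sub_distrib]
    refine Finset.sum_congr rfl fun z _ => ?_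
    rw [Finset.mul_sum, ← Finset.sum_sub_distrib]
    exact Finset.sum_congr rfl fun ω _ => by simp only; ring
  have e4 : ∑ s : V × Ω, C.ν s.2 * h s * ((1 - v o) * u0 s + C.P h s) =
      (1 - v o) * C.blk h o + C.ip h (C.P h) := by
    unfold BC.ip BC.blk
    have e5 : ∑ s : V × Ω, C.ν s.2 * h s * ((1 - v o) * u0 s + C.P h s) =
        ∑ s : V × Ω, (1 - v o) * (C.ν s.2 * h s * u0 s) + ∑ s : V × Ω, C.ν s.2 * h s * C.P h s := by
      rw [← Finset.sum_add_distrib]
      exact Finset.sum_congr rfl fun s _ => by ring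
    rw [e5, ← Finset.mul_sum]
    congr 2
    rw [Fintype.sum_prod_type, Finset.sum_eq_single o]
    · exact Finset.sum_congr rfl fun ω _ => by simp [hu0]
    · intro b _ hb
      exact Finset.sum_eq_zero fun ω _ => by simp [hu0, hb]
    · intro hb
      exact absurd (Finset.mem_univ o) hb
  rw [e3, e4] at h2
  have h3 := hD h
  unfold BC.Dir at h3
  have h4 := blk_sq_le C h o
  have h5 : κ * C.blk h o ^ 2 ≤ (1 - v o) * C.blk h o := by
    nlinarith [mul_le_mul_of_nonneg_left h4 hκ.le]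
  have h6 : C.blk h o = ∑ k ∈ Finset.range K, C.blk (W^[k] u0) o := by
    rw [hh, blk_sum]
  rw [← h6, le_div_iff₀ hκ]
  have hb : 0 ≤ C.blk h o := Finset.sum_nonneg fun ω _ => mul_nonneg (C.ν_pos _).le (hnn _)
  rcases hb.eq_or_lt with h7 | h7
  · rw [← h7, zero_mul]
    linarith [hv o]
  · by_contra h8
    push Not at h8
    nlinarith

theorem fkpath : S_FKPATH := by
  intro V Ω _ _ _ C o w k
  induction k with
  | zero =>
    intro s l
    simp only [Function.iterate_zero, id]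
    ring
  | succ k ih =>
    intro s l
    rw [Function.iterate_succ_apply', Function.iterate_succ_apply']
    have e : ∀ s' : V × Ω,
        (C.lstep^[k] (fun s l => (if s.1 = o then 1 else 0) * ∏ z, w z ^ l z)) s'
          (l + Pi.single s.1 1) = (∏ z, w z ^ l z) * w s.1 *
        ((fun (f : V × Ω → ℝ) (s : V × Ω) => w s.1 * C.P f s)^[k]
          (fun s => if s.1 = o then 1 else 0)) s' := by
      intro s'
      rw [ih s' (l + Pi.single s.1 1)]
      congr 1
      simp only [Pi.add_apply, pow_add, Finset.prod_mul_distrib]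
      congr 1
      rw [Finset.prod_eq_single s.1]
      · simp
      · intro b _ hb
        rw [Pi.single_eq_of_ne hb, pow_zero]
      · intro hb
        exact absurd (Finset.mem_univ _) hb
    conv_lhs => unfold BC.lstep
    show ∑ s', C.K s s' * _ = _ * (w s.1 * ∑ s', C.K s s' * _)
    simp only [Finset.mul_sum]
    refine Finset.sum_congr rfl fun s' _ => ?_
    have := e s'
    unfold BC.lstep at this
    rw [this]
    ring

end Pool.Agent.W177.CT
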