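import Pool.Agent.W823.CT.Stm

/-!
CT-GRI, CT-CARD, CT-DIAG: Green function and simple random walk.
-/

set_option autoImplicit false

open scoped BigOperators ENNReal

namespace Pool.Agent.W177.CT

open Pool.Agent.W823.CT

section
variable {V : Type} [Fintype V] (G : SimpleGraph V) [DecidableRel G.Adj]

lemma En_cs (f g : V → ℝ) : En G f g ^ 2 ≤ En G f f * En G g g := by
  unfold En
  have key : ∀ f g : V → ℝ, (∑ x, ∑ y, if G.Adj x y then (f x - f y) * (g x - g y) else 0) =
      ∑ p : V × V, (if G.Adj p.1 p.2 then f p.1 - f p.2 else 0) *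
        (if G.Adj p.1 p.2 then g p.1 - g p.2 else 0) := by
    intro f g
    rw [Fintype.sum_prod_type]
    refine Finset.sum_congr rfl fun x _ => Finset.sum_congr rfl fun y _ => ?_
    split_ifs <;> simp
  rw [key, key, key]
  have h := Finset.sum_mul_sq_le_sq_mul_sq Finset.univ
    (fun p : V × V => if G.Adj p.1 p.2 then f p.1 - f p.2 else 0)
    (fun p : V × V => if G.Adj p.1 p.2 then g p.1 - g p.2 else 0)
  simp only [pow_two] at h ⊢
  nlinarith

lemma En_sub_right (f g h : V → ℝ) : En G f (fun z => g z - h z) = En G f g - En G f h := by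
  unfold En
  rw [← sub_div, ← Finset.sum_sub_distrib]
  congr 1
  refine Finset.sum_congr rfl fun x _ => ?_
  rw [← Finset.sum_sub_distrib]
  refine Finset.sum_congr rfl fun y _ => ?_
  split_ifs <;> ring

lemma En_single [DecidableEq V] (g : V → ℝ) (x : V) :
    En G (Pi.single x 1) g = ∑ z ∈ G.neighborFinset x, (g x - g z) := by
  unfold En
  have h1 : ∀ u v : V, (if G.Adj u v then ((Pi.single x 1 : V → ℝ) u - (Pi.single x 1 : V → ℝ) v) *
      (g u - g v) else 0) = (if u = x then (if G.Adj u v then (g u - g v) else 0) else 0) +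
      (if v = x then (if G.Adj u v then (g v - g u) else 0) else 0) := by
    intro u v
    simp only [Pi.single_apply]
    split_ifs <;> ring
  simp only [h1, Finset.sum_add_distrib]
  have h2 : ∑ u, ∑ v, (if u = x then (if G.Adj u v then (g u - g v) else 0) else 0) =
      ∑ z ∈ G.neighborFinset x, (g x - g z) := by
    rw [Finset.sum_eq_single x]
    · simp only [if_true]
      rw [← Finset.sum_filter]
      refine Finset.sum_congr ?_ fun _ _ => rfl
      ext z
      simp
    · intro b _ hb
      simp [hb]
    · intro h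
      exact absurd (Finset.mem_univ x) h
  have h3 : ∑ u, ∑ v, (if v = x then (if G.Adj u v then (g v - g u) else 0) else 0) =
      ∑ z ∈ G.neighborFinset x, (g x - g z) := by
    rw [Finset.sum_comm, Finset.sum_eq_single x]
    · simp only [if_true]
      rw [← Finset.sum_filter]
      refine Finset.sum_congr ?_ fun _ _ => rfl
      ext z
      simp [G.adj_comm]
    · intro b _ hb
      simp [hb]
    · intro h
      exact absurd (Finset.mem_univ x) h
  rw [h2, h3]
  ring

lemma dotp_comm {ι : Type} [Fintype ι] (a b : ι → ℝ) : dotp a b = dotp b a := by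
  unfold dotp
  exact Finset.sum_congr rfl fun i _ => mul_comm _ _

lemma dotp_sub {ι : Type} [Fintype ι] (a b c : ι → ℝ) : dotp (a - b) c = dotp a c - dotp b c := by
  unfold dotp
  rw [← Finset.sum_sub_distrib]
  exact Finset.sum_congr rfl fun i _ => by rw [Pi.sub_apply]; ring

lemma nrm_sq {ι : Type} [Fintype ι] (a : ι → ℝ) : nrm a ^ 2 = dotp a a := by
  unfold nrm dotp
  rw [Real.sq_sqrt (Finset.sum_nonneg fun i _ => sq_nonneg _)]
  exact Finset.sum_congr rfl fun i _ => by ring

end

theorem gri : S_GRI := by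
  intro V _ _ G _ o a ha
  have h1 : ∀ (f : V → ℝ) (x y : V), (f x - f y) ^ 2 ≤ nrm (a x - a y) ^ 2 * En G f f := by
    intro f x y
    have e : ∀ f : V → ℝ, En G f (fun z => dotp (a x) (a z) - dotp (a y) (a z)) = f x - f y := by
      intro f
      rw [En_sub_right, ha.2.2, ha.2.2]
      ring
    have h2 := En_cs G f (fun z => dotp (a x) (a z) - dotp (a y) (a z))
    rw [e, e] at h2
    have e2 : dotp (a x) (a x) - dotp (a y) (a x) - (dotp (a x) (a y) - dotp (a y) (a y)) =
        nrm (a x - a y) ^ 2 := by
      rw [nrm_sq, dotp_sub, dotp_comm (a x) (a x - a y), dotp_comm (a y) (a x - a y), dotp_sub,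
        dotp_sub, dotp_comm (a y) (a x)]
    rw [e2] at h2
    linarith
  refine ⟨h1, ?_, ?_⟩
  · intro x y hxy
    by_contra hne
    have h2 := h1 (Pi.single x 1) x y
    rw [hxy, sub_self] at h2
    have h3 : nrm (0 : V → ℝ) = 0 := by simp [nrm]
    rw [h3] at h2
    simp only [Pi.single_eq_same, Pi.single_apply, if_neg (Ne.symm hne)] at h2
    norm_num at h2
  · intro x y
    have h2 := ha.2.2 (Pi.single x 1) y
    rw [En_single, Finset.sum_sub_distrib, Finset.sum_const, SimpleGraph.card_neighborFinset_eq_degree,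
      nsmul_eq_mul] at h2
    simp only [dotp_comm (a y)] at h2
    rw [h2]
    simp only [Pi.single_apply, eq_comm]

lemma srw_one {V : Type} [Fintype V] [DecidableEq V] (G : SimpleGraph V) [DecidableRel G.Adj]
    (hd : ∀ x, 0 < G.degree x) (k : ℕ) : ∀ (x : V) (A : Finset V), A.card + k < Fintype.card V →
    (srwStep G)^[k] (fun _ A => nc A) x A = 1 := by
  induction k with
  | zero =>
    intro x A h
    simp only [Function.iterate_zero, id]
    unfold nc
    rw [if_neg]
    rintro rfl
    rw [Finset.card_univ] at h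
    omega
  | succ k ih =>
    intro x A h
    rw [Function.iterate_succ_apply']
    unfold srwStep
    have e : ∀ y ∈ G.neighborFinset x, (srwStep G)^[k] (fun _ A => nc A) y (insert y A) = 1 := by
      intro y _
      refine ih _ _ ?_
      have := Finset.card_insert_le y A
      omega
    unfold srwStep at e
    rw [Finset.sum_congr rfl e, Finset.sum_const, SimpleGraph.card_neighborFinset_eq_degree,
      nsmul_eq_mul, mul_one, div_self]
    exact_mod_cast (hd x).ne'

theorem card : S_CARD := by
  intro V _ _ G _ hG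
  obtain ⟨x0⟩ := hG.nonempty
  by_cases h1 : Fintype.card V = 1
  · rw [h1]
    simp
  have h2 : 2 ≤ Fintype.card V := by
    have : 0 < Fintype.card V := Fintype.card_pos_iff.2 ⟨x0⟩
    omega
  have : Nontrivial V := Fintype.one_lt_card_iff_nontrivial.1 (by omega)
  have hd : ∀ x, 0 < G.degree x := fun x => hG.preconnected.degree_pos_of_nontrivial x
  unfold Tsrw
  refine le_trans ?_ (le_iSup _ x0)
  refine le_trans ?_ (ENNReal.sum_le_tsum (Finset.range (Fintype.card V - 1)))
  rw [Finset.sum_congr rfl (g := fun _ => (1 : ℝ≥0∞))]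
  · simp
  · intro k hk
    rw [srw_one G hd k x0 {x0} (by rw [Finset.card_singleton]; have := Finset.mem_range.1 hk; omega)]
    simp

theorem diag (h2 : S_HITB) : S_DIAG := by
  intro V _ _ G _ o a hG ha x
  have h3 := (gri V G o a ha).2.2
  have hsum : ∑ w, (G.degree w : ℝ) = 2 * G.edgeFinset.card := by
    exact_mod_cast G.sum_degrees_eq_twice_card_edges
  have hdo : ∀ z, dotp (a o) (a z) = 0 := by
    intro z
    unfold dotp
    exact Finset.sum_eq_zero fun u _ => by rw [ha.1]; ring
  -- hitting time of `o`
  let ho : V → ℝ := fun z => ∑ w, (G.degree w : ℝ) * dotp (a z) (a w)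
  have hoo : ho o = 0 := Finset.sum_eq_zero fun w _ => by rw [hdo]; ring
  have hgen : ∀ z, (G.degree z : ℝ) * ho z - ∑ u ∈ G.neighborFinset z, ho u =
      G.degree z - 2 * G.edgeFinset.card * (if z = o then 1 else 0) := by
    intro z
    simp only [ho]
    rw [Finset.sum_comm, Finset.mul_sum, ← Finset.sum_sub_distrib]
    have e : ∀ w, (G.degree z : ℝ) * ((G.degree w : ℝ) * dotp (a z) (a w)) -
        ∑ u ∈ G.neighborFinset z, (G.degree w : ℝ) * dotp (a u) (a w) =
        (G.degree w : ℝ) * ((if z = w then 1 else 0) - (if z = o then 1 else 0)) := by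
      intro w
      rw [← h3 z w, mul_sub, Finset.mul_sum]
      ring
    rw [Finset.sum_congr rfl fun w _ => e w]
    simp only [mul_sub, Finset.sum_sub_distrib, mul_ite, mul_one, mul_zero,
      Finset.sum_ite_eq, Finset.mem_univ, if_true]
    split_ifs
    · rw [hsum]
    · simp
  have A1 : ENNReal.ofReal (ho x) ≤ Tsrw G := by
    refine h2 V G ho o hG hoo (fun z hz => ?_) x
    have := hgen z
    rw [if_neg hz] at this
    linarith
  -- hitting time of `x`
  let hx : V → ℝ := fun z => ho z - ho x - 2 * G.edgeFinset.card * (dotp (a z) (a x) - dotp (a x) (a x))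
  have A2 : ENNReal.ofReal (hx o) ≤ Tsrw G := by
    refine h2 V G hx x hG (by simp only [hx]; ring) (fun z hz => ?_) o
    have h4 := hgen z
    have h5 := h3 z x
    rw [if_neg hz] at h5
    simp only [hx, Finset.sum_sub_distrib, Finset.sum_const, ← Finset.mul_sum,
      SimpleGraph.card_neighborFinset_eq_degree, nsmul_eq_mul]
    have h6 : 2 * (G.edgeFinset.card : ℝ) * ((G.degree z : ℝ) * dotp (a z) (a x) -
        ∑ u ∈ G.neighborFinset z, dotp (a u) (a x)) =
        2 * (G.edgeFinset.card : ℝ) * (0 - if z = o then 1 else 0) := by rw [h5]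
    linarith
  have hs : ho x + hx o = 2 * (G.edgeFinset.card * nrm (a x) ^ 2) := by
    simp only [hx]
    rw [hoo, hdo, nrm_sq]
    ring
  rcases le_total (G.edgeFinset.card * nrm (a x) ^ 2) (ho x) with h7 | h7
  · exact (ENNReal.ofReal_le_ofReal h7).trans A1
  · exact (ENNReal.ofReal_le_ofReal (by linarith)).trans A2

end Pool.Agent.W177.CT
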