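import Pool.Agent.W823.CT.Stm

/-!
CT-MOB: Moebius inversion for unions.
-/

set_option autoImplicit false

open scoped BigOperators

namespace Pool.Agent.W177.CT

open Pool.Agent.W823.CT

theorem mob : S_MOB := by
  classical
  intro α _ E 𝒞 p l w hup hp hl hprod
  let c : Finset α → ℝ := fun F => ∑ F1 ∈ F.powerset, ∑ F2 ∈ F.powerset,
    if F1 ∪ F2 = F then p F1 * l F2 else 0
  -- sums over the powerset of `F` of `c`
  have hsumc : ∀ F : Finset α, ∑ F' ∈ F.powerset, c F' =
      (∑ F' ∈ F.powerset, p F') * (∑ F' ∈ F.powerset, l F') := by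
    intro F
    have e1 : ∀ F' ∈ F.powerset, c F' = ∑ F1 ∈ F.powerset, ∑ F2 ∈ F.powerset,
        if F1 ∪ F2 = F' then p F1 * l F2 else 0 := by
      intro F' hF'
      have hsub : F'.powerset ⊆ F.powerset := Finset.powerset_mono.2 (Finset.mem_powerset.1 hF')
      simp only [c]
      rw [Finset.sum_subset hsub]
      · refine Finset.sum_congr rfl fun F1 _ => ?_
        refine Finset.sum_subset hsub ?_
        intro F2 _ h2
        rw [if_neg]
        intro h3
        exact h2 (Finset.mem_powerset.2 (h3 ▸ Finset.subset_union_right))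
      · intro F1 _ h1
        refine Finset.sum_eq_zero fun F2 _ => ?_
        rw [if_neg]
        intro h3
        exact h1 (Finset.mem_powerset.2 (h3 ▸ Finset.subset_union_left))
    rw [Finset.sum_congr rfl e1, Finset.sum_comm, Finset.sum_mul]
    refine Finset.sum_congr rfl fun F1 hF1 => ?_
    rw [Finset.sum_comm, Finset.mul_sum]
    refine Finset.sum_congr rfl fun F2 hF2 => ?_
    rw [Finset.sum_ite_eq, if_pos]
    exact Finset.mem_powerset.2 (Finset.union_subset (Finset.mem_powerset.1 hF1)
      (Finset.mem_powerset.1 hF2))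
  have hcw : ∀ (n : ℕ) (F : Finset α), F.card = n → F ⊆ E → c F = w F := by
    intro n
    induction n using Nat.strong_induction_on with
    | _ n ih =>
      intro F hn hF
      have h1 := hprod F hF
      rw [← hsumc F] at h1
      rw [← Finset.sum_erase_add _ c (Finset.mem_powerset_self F),
        ← Finset.sum_erase_add _ w (Finset.mem_powerset_self F)] at h1
      have h2 : ∑ x ∈ F.powerset.erase F, c x = ∑ x ∈ F.powerset.erase F, w x := by
        refine Finset.sum_congr rfl fun F' hF' => ?_
        rw [Finset.mem_erase, Finset.mem_powerset] at hF'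
        exact ih F'.card (hn ▸ Finset.card_lt_card (Finset.ssubset_iff_subset_ne.2
          ⟨hF'.2, hF'.1⟩)) F' rfl (hF'.2.trans hF)
      linarith
  have h1 : ∑ F ∈ E.powerset.filter 𝒞, w F = ∑ F1 ∈ E.powerset, ∑ F2 ∈ E.powerset,
      if 𝒞 (F1 ∪ F2) then p F1 * l F2 else 0 := by
    have e1 : ∀ F ∈ E.powerset.filter 𝒞, w F = ∑ F1 ∈ E.powerset, ∑ F2 ∈ E.powerset,
        if F1 ∪ F2 = F then p F1 * l F2 else 0 := by
      intro F' hF'
      rw [Finset.mem_filter] at hF'
      rw [← hcw _ F' rfl (Finset.mem_powerset.1 hF'.1)]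
      have hsub : F'.powerset ⊆ E.powerset := Finset.powerset_mono.2 (Finset.mem_powerset.1 hF'.1)
      simp only [c]
      rw [Finset.sum_subset hsub]
      · refine Finset.sum_congr rfl fun F1 _ => ?_
        refine Finset.sum_subset hsub ?_
        intro F2 _ h2
        rw [if_neg]
        intro h3
        exact h2 (Finset.mem_powerset.2 (h3 ▸ Finset.subset_union_right))
      · intro F1 _ h1
        refine Finset.sum_eq_zero fun F2 _ => ?_
        rw [if_neg]
        intro h3
        exact h1 (Finset.mem_powerset.2 (h3 ▸ Finset.subset_union_left))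
    rw [Finset.sum_congr rfl e1, Finset.sum_comm]
    refine Finset.sum_congr rfl fun F1 hF1 => ?_
    rw [Finset.sum_comm]
    refine Finset.sum_congr rfl fun F2 hF2 => ?_
    rw [Finset.sum_ite_eq]
    have h3 : F1 ∪ F2 ∈ E.powerset := Finset.mem_powerset.2
      (Finset.union_subset (Finset.mem_powerset.1 hF1) (Finset.mem_powerset.1 hF2))
    simp only [Finset.mem_filter, h3, true_and]
  rw [h1, Finset.sum_filter, Finset.sum_mul]
  refine Finset.sum_le_sum fun F1 hF1 => ?_
  rw [Finset.mul_sum]
  refine Finset.sum_le_sum fun F2 hF2 => ?_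
  have h0 : 0 ≤ p F1 * l F2 := mul_nonneg (hp F1 (Finset.mem_powerset.1 hF1))
    (hl F2 (Finset.mem_powerset.1 hF2))
  by_cases h4 : 𝒞 F1
  · rw [if_pos h4, if_pos (hup F1 _ Finset.subset_union_left h4)]
  · rw [if_neg h4, zero_mul]
    split_ifs
    · exact h0
    · exact le_refl _

end Pool.Agent.W177.CT
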